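import Mathlib
import Pool.Agent.TH170.GS.Main
import Pool.Agent.TH170.GS.TB
import Pool.Agent.Y1.KN.All
import Pool.Agent.Y1.KN.Use
import Pool.Agent.X303.TBDual

/-!
# Finite generation of the étale motivic cohomology in the top weight for the smooth projective
varieties over finite fields generated by abelian varieties with almost all slope types of all CM fields

Over an algebraic closure of the field with `p` elements each abelian variety is isogenous to the
reduction of an abelian variety of CM type (Honda, Tate). So an abelian variety over the field with
`p ^ a` elements is modelled by `RedAV`: a finite product of CM types `(E i, Φ i)` with Weil numbers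
`π i ∈ E i` that satisfy the formula of Shimura and Taniyama; its cohomology of degree `n`, with
coefficients in an algebraically closed field `Ω`, consists of the alternating `n`-forms on
`Ω ⊗ H_1`, on which the Frobenius endomorphism acts by `π`. We fix an isomorphism `ν` of the algebraic
closure of `ℚ_p` with `ℂ`; it defines a `p`-adic valuation of `ℂ`, with the value one at `p`.

Let `K i` be finitely many CM fields, of degrees `2 g i`, that are pairwise independent: for `i ≠ k`
and all complex embeddings `φ` of `K i` and `ψ` of `K k` some automorphism of `ℂ` is the identity on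
`φ (K i)` and the complex conjugation on `ψ (K k)` (this is no condition for one field). Nothing is
assumed about their Galois groups. Let `M i` be functions with nonzero integral values, all of which
divide `n i`, on the complex embeddings of `K i`, invariant under complex conjugation. A CM type
`Φ i` of `K i` (there are `2 ^ (g i)` types), `M i` and a real number `κ i ≠ 0` prescribe the slopes
`(a + κ M) / 2` (at the embeddings in `Φ i`) and `(a - κ M) / 2` (outside of `Φ i`) of a Weil number in
`K i`; `M = 1`, `κ = a` is the ordinary case.

There are `2 ^ (∑ i, g i)` families of CM types `Φ i` of the fields `K i`. For such a family let `𝒞`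
(`OfTypes`) be the class of the abelian varieties `Y` each of whose factors is supersingular or has a
Frobenius endomorphism some power of which is, for some `i`, a Weil number in `K i` with the slopes
prescribed by `Φ i`, `M i` and some real number `κ i ≠ 0` (which depends only on `Y` and `i`). So `Y`
is, over an algebraic closure, isogenous to a product of powers of one abelian variety for each `i`,
with the given slopes, and of a supersingular one.

`Homology Ω V` are data of motivic homology `M X i j = H_i^M(X, ℚ(j)) = CH_j(X, i - 2 j) ⊗ ℚ` and of
`ℓ`-adic homology `E X i j = H_i(X, ℚ_ℓ(j))` (coefficients extended to `Ω`) of schemes `X` of finite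
type over a finite field (the elements of `V`), with the Frobenius and the regulator. For a family of
types let `𝒢` be the smallest class (`Generated`) of such schemes that contains those with the
homology groups of abelian varieties in `𝒞` (`IsAbelianOfTypes`), that is closed under direct summands
of finite sums of twists of motives, and that contains all of a closed subscheme `Z` of `X`, `X` and
`X ∖ Z` if it contains two of them. It contains for instance all products of varieties in `𝒞`, all
products of curves with Jacobians in `𝒞` and of open subsets of such curves, symmetric powers of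
them, and the singular and the open varieties with a stratification by such varieties.

A family of types is exceptional (`exceptionalFamilies ν K M`) if the following fails: let `X` be smooth
projective, connected, of dimension `d` over a finite field, and a member of `𝒢`, or such that the
groups `CH_0(X, n) ⊗ ℚ`, `n > 0`, are images of those of such a variety (`ZeroGenerated`). Then the groups
`H^i(X_et, ℤ(d))` (`IsEtaleTop`) are finite for `i < 2 d`, zero for `i < 0` and finitely generated for
`i = 2 d`.

Properties of the theory of cycles that are used for the abelian varieties (`IsChow`,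
`IsMotivic`), all of them known theorems: Poincaré duality, the formal properties of correspondences,
the nilpotence of homologically trivial correspondences (Kimura), the operation of the Frobenius
endomorphism on higher Chow groups, the vanishing of the higher rational `K`-groups of a finite field
(Quillen), and the algebraicity of the classes in `Alg` (of which only products of classes of divisors
matter here, theorem of Tate). The passage from the Tate conjecture to all degrees and to the class
`𝒢` is due to Soulé, Geisser, Kahn and Jannsen.

The theorem bounds the number of the exceptional families: it is at most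
`2 ^ (∑ i, g i) * ∑ i, C * (n i) ^ 2 * rate (K i) (g i) (q i)`, with an absolute constant `C`. Here
`q i` is any prime factor of `g i` (or `q i = 1`), and `rate K g q` is `(1 + log (2 g)) ^ 16` times
the smaller of the numbers

* `W (K) / √g`, where (second part of the theorem, `WeightEstimate`) `W (K) ≤ N ^ 2 * D ^ (1 / 4)`;
  `N` is the number of the CM subfields of `K` (with `K`) and `D` is the largest degree of a CM
  subfield of `K` that is normal over `ℚ` with a nonabelian Galois group (`D = 1` if there are none);
* `√g / q`.

So the exceptional types are a proportion `O (n ^ 2 * g ^ (-1 / 4) * (log g) ^ 16)` of all types of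
all CM fields with a bounded number of CM subfields, and `O (n ^ 2 * g ^ (-δ) * (log g) ^ 16)` of the
types of all CM fields `K`, with any number of subfields, whose degree is divisible by a prime number
`q ≥ g ^ (1 / 2 + δ)`. For the number `W (K)` (`subfieldWeight K`) and the proof of the bound see the
starting result `MP_ee618e_ag.AllCMFields`.
-/

set_option autoImplicit false

namespace Pool.Agent.Results.MP_c71c7a_nt.AllCMFields

open NumberField Module Pool.Agent.H204R3.CM Pool.Agent.H977R3.CM Pool.Agent.TH170 Pool.Agent.Y1.KN
  Pool.Agent.W495.TA Pool.Agent.W495.FM Pool.Agent.X303.TBDual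

/-- The smallest class of smooth projective schemes over the finite field that contains the smooth
projective members `X` of the class generated by the schemes with the property `S` (only the purity of
the `ℓ`-adic homology is used), and a smooth projective scheme `X` if it contains some `X'` such that
the groups `CH_0(X, n) ⊗ ℚ = M X n 0`, `n > 0`, are images of `CH_0(X', n) ⊗ ℚ`. -/
inductive ZeroGenerated {Ω V : Type} [Field Ω] (T : Homology Ω V) (S : V → Prop) : V → Prop
  | base (X : V) (hX : Generated T S X) (h : IsPure T X) : ZeroGenerated T S X
  | image (X' X : V)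
      (h : ∀ n : ℤ, 0 < n → ∃ f : T.M X' n 0 → T.M X n 0, IsAdd f ∧ Function.Surjective f)
      (hX' : ZeroGenerated T S X') : ZeroGenerated T S X

/-- The groups `H i = H^i(X_et, ℤ(d))` are the étale motivic cohomology groups in the top weight of the
smooth projective connected scheme `X` of dimension `d` over a finite field: for `i < 2 d` the kernel of
the map to `H^i(X, ℚ(d)) = H_(2 d - i)^M(X, ℚ(0))` is finite, for `i < 0` it is zero, and `H (2 d)` is
finitely generated. -/
structure IsEtaleTop {Ω V : Type} [Field Ω] (T : Homology Ω V) (X : V) (d : ℤ) (H : ℤ → Type)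
    [∀ i, AddCommGroup (H i)] : Prop where
  low : ∀ i : ℤ, i < 2 * d → ∃ f : H i →+ T.M X (2 * d - i) 0, Finite f.ker
  neg : ∀ i : ℤ, i < 0 → ∃ f : H i →+ T.M X (2 * d - i) 0, Function.Injective f
  top : AddGroup.FG (H (2 * d))

/-- Finite generation of the étale motivic cohomology in the top weight for all smooth projective
varieties generated by abelian varieties with the slope types `Φ`. -/
def Holds {p : ℕ} [Fact p.Prime] (ν : PadicAlgCl p ≃+* ℂ) {I : Type} (K : I → Type)
    [∀ i, Field (K i)] (M : ∀ i, (K i →+* ℂ) → ℤ) (Φ : ∀ i, Set (K i →+* ℂ)) : Prop :=
  ∀ (Ω : Type) [Field Ω] [IsAlgClosed Ω] [CharZero Ω] (V : Type) (T : Homology Ω V),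
    IsHomology T → ∀ X : V, ZeroGenerated T (GS.IsAbelianOfTypes ν K M Φ T) X →
      ∀ (d : ℤ), 0 ≤ d → ∀ (H : ℤ → Type) [∀ i, AddCommGroup (H i)], IsEtaleTop T X d H →
        (∀ i : ℤ, i < 2 * d → Finite (H i)) ∧ (∀ i : ℤ, i < 0 → ∀ x : H i, x = 0) ∧
          ∀ i : ℤ, i ≤ 2 * d → AddGroup.FG (H i)

/-- The exceptional families of CM types. -/
def exceptionalFamilies {p : ℕ} [Fact p.Prime] (ν : PadicAlgCl p ≃+* ℂ) {I : Type} (K : I → Type)
    [∀ i, Field (K i)] (M : ∀ i, (K i →+* ℂ) → ℤ) : Set (∀ i, Set (K i →+* ℂ)) :=
  {Φ | (∀ i, IsCMType (Φ i)) ∧ ¬ Holds ν K M Φ}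

theorem holds_of {p : ℕ} [Fact p.Prime] {ν : PadicAlgCl p ≃+* ℂ} {I : Type} (K : I → Type)
    [∀ i, Field (K i)] (M : ∀ i, (K i →+* ℂ) → ℤ) (Φ : ∀ i, Set (K i →+* ℂ))
    (h : ∀ Y : RedAV p ν, GS.OfTypes K M Φ Y → ∃ Z : RedAV p ν,
      TH117.BL.HasElementaryRelations Z ∧ TH117.BL.IsPowersTimesSupersingular Z Y) :
    Holds ν K M Φ := by
  intro _ _ _ _ _ T hT X hX d hd H _ hH
  have h0 : ∀ (n : ℤ), 0 < n → ∀ x : T.M X n 0, x = 0 := by
    clear hH hd
    induction hX with
    | base X hX h' => exact fun n hn x => parshin hT (GS.tb_types h hT hX) h' (by omega) x
    | image X' X h' _ ih =>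
      intro n hn x
      obtain ⟨f, hf, hs⟩ := h' n hn
      obtain ⟨y, rfl⟩ := hs x
      obtain ⟨z, hz⟩ := hs 0
      rw [ih n hn y, ← ih n hn z, hz]
  have h1 : ∀ i : ℤ, i < 2 * d → Finite (H i) := by
    intro i hi
    obtain ⟨f, hf⟩ := hH.low i hi
    have h2 : ∀ x : H i, x ∈ f.ker := fun x => h0 _ (by omega) (f x)
    exact Finite.of_injective (fun x : H i => (⟨x, h2 x⟩ : f.ker)) fun x y h =>
      congrArg Subtype.val h
  refine ⟨h1, fun i hi x => ?_, fun i hi => ?_⟩
  · obtain ⟨f, hf⟩ := hH.neg i hi
    exact hf ((h0 _ (by omega) (f x)).trans (map_zero f).symm)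
  · rcases hi.lt_or_eq with hi | rfl
    · have := h1 i hi
      infer_instance
    · exact hH.top

/-- **The étale motivic cohomology groups in the top weight of all smooth projective varieties generated by
abelian varieties with almost all slope types of all CM fields with few CM subfields, and of all CM
fields whose degree has a large prime factor, are finitely generated.** -/
theorem result :
    (∃ C : ℝ, 0 ≤ C ∧ ∀ (p : ℕ) [Fact p.Prime] (ν : PadicAlgCl p ≃+* ℂ) (I : Type) [Fintype I]
      (K : I → Type) [∀ i, Field (K i)] [∀ i, NumberField (K i)] [∀ i, IsCMField (K i)]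
      (M : ∀ i, (K i →+* ℂ) → ℤ) (n g q : I → ℕ), PairwiseIndep K →
      (∀ i φ, M i (ComplexEmbedding.conjugate φ) = M i φ) → (∀ i, n i ≠ 0) →
      (∀ i φ, M i φ ∣ (n i : ℤ)) → (∀ i, finrank ℚ (K i) = 2 * g i) →
      (∀ i, q i ∣ g i ∧ (q i = 1 ∨ (q i).Prime)) →
      ((exceptionalFamilies ν K M).ncard : ℝ) ≤
        2 ^ (∑ i, g i) * ∑ i, C * (n i : ℝ) ^ 2 * rate (K i) (g i) (q i)) ∧
    WeightEstimate := by
  obtain ⟨C, hC0, hC⟩ := slope families_holds
  refine ⟨⟨C, hC0, ?_⟩, weight_estimate_holds⟩
  intro p _ ν I _ K _ _ _ M n g q hind hM hn hMn hg hq
  exact hC p ν I K M n g q hind hM hn hMn hg hq _ fun Φ h => holds_of K M Φ h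

end Pool.Agent.Results.MP_c71c7a_nt.AllCMFields
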