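import Pool.Agent.R937.PZ.Mot
import Pool.Agent.X303.TBDual

/-!
# Finiteness of the étale motivic cohomology in the top weight of the smooth projective varieties over
finite fields generated by abelian varieties of dimension at most five and by products of abelian
varieties with small factors

Over an algebraic closure of the field with `p` elements each abelian variety is isogenous to the
reduction of an abelian variety of CM type (Honda, Tate). So an abelian variety over the field with
`p ^ a` elements is modelled by `RedAV`: a finite product of CM types `(E i, Φ i)` with Weil numbers
`π i ∈ E i` that satisfy the formula of Shimura and Taniyama; its cohomology of degree `n`, with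
coefficients in an algebraically closed field `Ω`, consists of the alternating `n`-forms on
`Ω ⊗ H_1`, on which the Frobenius endomorphism acts by `π`.

Let `𝒞` be the class of the abelian varieties `Y` (`IsGoodAVP`, any Newton polygons) of dimension at
most five, and of those that are isogenous, over an algebraic closure, to a product of a supersingular
abelian variety of any dimension and of powers of the factors of an abelian variety `Z` such that the
factors of `Z` have dimension at most three, and two factors of dimension three with CM fields with the
same Galois closure are isogenous, or have Galois CM fields, or one of them is supersingular, or they are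
**both not ordinary, with `p`-ranks that are not one and two** (`SmallFactorsP`). So `𝒞` contains for
instance all abelian varieties of dimension at most five, and all products of elliptic curves, of
abelian surfaces and of a supersingular abelian variety.

`Homology Ω V` are data of motivic homology `M X i j = H_i^M(X, ℚ(j)) = CH_j(X, i - 2 j) ⊗ ℚ` and of
`ℓ`-adic homology `E X i j = H_i(X, ℚ_ℓ(j))` (coefficients extended to `Ω`) of schemes `X` of finite
type over a finite field (the elements of `V`), with the Frobenius and the regulator. Let `𝒢` be the
smallest class (`Generated`) of such schemes that contains those with the homology groups of abelian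
varieties in `𝒞` (`IsGoodAbelianP`), that is closed under direct summands of finite sums of twists of
motives, and that contains all of a closed subscheme `Z` of `X`, `X` and `X ∖ Z` if it contains two of
them. It contains for instance the products of curves, of open subsets of them, and of surfaces
dominated by products of curves, if the product of their Jacobians is in `𝒞`, symmetric powers of them,
and the singular and the open varieties with a stratification by such varieties.

Let `𝒫` be the smallest class (`ZeroGenerated`) of smooth projective varieties over the finite field
that contains the smooth projective members of `𝒢`, and a smooth projective variety `X` if it contains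
some `X'` such that the groups `CH_0(X, n) ⊗ ℚ`, `n > 0`, are images of `CH_0(X', n) ⊗ ℚ`. By the
projection formula this is the case if there is a surjective morphism `X' → X` (take a multisection).

**Theorem.** Let `X` be a connected member of `𝒫` of dimension `d` and `H i = H^i(X_et, ℤ(d))`. Then
`H i` is finite for all `i < 2 d`, zero for `i < 0`, and finitely generated for `i = 2 d`.

For the groups `H i` (`IsEtaleTop`) we use: for `i < 2 d` the kernel of `H i → H^i(X, ℚ(d))`, where
`H^i(X, ℚ(d)) = M X (2 d - i) 0`, is finite, as it is a quotient of `H^(i - 1)(X_et, ℚ/ℤ(d))` (Deligne;
Colliot-Thélène, Sansuc, Soulé; Gros, Suwa); this map is injective for `i < 0`; and `H (2 d)` is finitely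
generated (unramified class field theory: the group of zero-cycles of degree zero is finite). Purity
(Deligne) is `IsPure`.

Properties of the theory of cycles that are used for the abelian varieties (`IsChowS`, `IsMotivic`),
all of them known theorems: Poincaré duality, the formal properties of correspondences, the nilpotence
of homologically trivial correspondences (Kimura), the operation of the Frobenius endomorphism on higher
Chow groups, the vanishing of the higher rational `K`-groups of a finite field (Quillen), and the
algebraicity of the Tate classes generated by divisors, by the reductions of split Weil classes on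
abelian fourfolds and sixfolds of CM type and by the reductions of Hodge classes on products of elliptic
curves and abelian surfaces with complex multiplication (Tate, Markman, Ramón Marí).

The Tate conjecture for the abelian varieties in `𝒞` is the content of the starting files
(`MP_ee618e_ag.SurfacesAndDimensionFive` and `MP_2ce3e7_ag`/`MP_de89cc_ag.NonOrdinaryThreefolds`); the
passage from it to all degrees and to the class `𝒢` is due to Soulé, Geisser, Kahn and Jannsen.
-/

set_option autoImplicit false

namespace Pool.Agent.Results.MP_c71c7a_nt.FiniteFieldsSmallFactors

open Pool.Agent.W495.TA Pool.Agent.W495.FM Pool.Agent.X303.TBDual Pool.Agent.R937.PG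

/-- The smallest class of smooth projective schemes over the finite field that contains the smooth
projective members `X` of the class generated by the schemes with the property `S` (only the purity of
the `ℓ`-adic homology is used), and a smooth projective scheme `X` if it contains some `X'` such that
the groups `CH_0(X, n) ⊗ ℚ = M X n 0`, `n > 0`, are images of `CH_0(X', n) ⊗ ℚ`. -/
inductive ZeroGenerated {Ω V : Type} [Field Ω] (T : Homology Ω V) (S : V → Prop) : V → Prop
  | base (X : V) (hX : Generated T S X) (h : IsPure T X) : ZeroGenerated T S X
  | image (X' X : V)
      (h : ∀ n : ℤ, 0 < n → ∃ f : T.M X' n 0 → T.M X n 0, IsAdd f ∧ Function.Surjective f)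
      (hX' : ZeroGenerated T S X') : ZeroGenerated T S X

/-- The groups `H i = H^i(X_et, ℤ(d))` are the étale motivic cohomology groups in the top weight of the
smooth projective connected scheme `X` of dimension `d` over a finite field: for `i < 2 d` the kernel of
the map to `H^i(X, ℚ(d)) = H_(2 d - i)^M(X, ℚ(0))` is finite, for `i < 0` it is zero, and `H (2 d)` is
finitely generated. -/
structure IsEtaleTop {Ω V : Type} [Field Ω] (T : Homology Ω V) (X : V) (d : ℤ) (H : ℤ → Type)
    [∀ i, AddCommGroup (H i)] : Prop where
  low : ∀ i : ℤ, i < 2 * d → ∃ f : H i →+ T.M X (2 * d - i) 0, Finite f.ker
  neg : ∀ i : ℤ, i < 0 → ∃ f : H i →+ T.M X (2 * d - i) 0, Function.Injective f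
  top : AddGroup.FG (H (2 * d))

/-- Parshin's conjecture in weight zero: `CH_0(X, n) ⊗ ℚ = 0` for `n > 0`. -/
theorem parshin_zero {Ω V : Type} [Field Ω] [IsAlgClosed Ω] [CharZero Ω] {T : Homology Ω V}
    (hT : IsHomology T) {p : ℕ} [Fact p.Prime] {ν : PadicAlgCl p ≃+* ℂ} {X : V}
    (hX : ZeroGenerated T (IsGoodAbelianP p ν T) X) : ∀ (n : ℤ), 0 < n → ∀ x : T.M X n 0, x = 0 := by
  induction hX with
  | base X hX h => exact fun n hn x => parshin hT (tb_goodP hT hX) h (by omega) x
  | image X' X h _ ih =>
    intro n hn x
    obtain ⟨f, hf, hs⟩ := h n hn
    obtain ⟨y, rfl⟩ := hs x
    obtain ⟨z, hz⟩ := hs 0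
    rw [ih n hn y, ← ih n hn z, hz]

/-- **The étale motivic cohomology groups in the top weight of all smooth projective varieties over
finite fields in the class `ZeroGenerated` are finitely generated; they are finite in all degrees below
`2 d` and zero in negative degrees.** -/
theorem result (p : ℕ) [Fact p.Prime] (ν : PadicAlgCl p ≃+* ℂ) (Ω : Type) [Field Ω]
    [IsAlgClosed Ω] [CharZero Ω] (V : Type) (T : Homology Ω V) (hT : IsHomology T) (X : V)
    (hX : ZeroGenerated T (IsGoodAbelianP p ν T) X) (d : ℤ) (hd : 0 ≤ d) (H : ℤ → Type)
    [∀ i, AddCommGroup (H i)] (hH : IsEtaleTop T X d H) :
    (∀ i : ℤ, i < 2 * d → Finite (H i)) ∧ (∀ i : ℤ, i < 0 → ∀ x : H i, x = 0) ∧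
      ∀ i : ℤ, i ≤ 2 * d → AddGroup.FG (H i) := by
  have h0 := parshin_zero hT hX
  have h1 : ∀ i : ℤ, i < 2 * d → Finite (H i) := by
    intro i hi
    obtain ⟨f, hf⟩ := hH.low i hi
    have h2 : ∀ x : H i, x ∈ f.ker := fun x => h0 _ (by omega) (f x)
    exact Finite.of_injective (fun x : H i => (⟨x, h2 x⟩ : f.ker)) fun x y h =>
      congrArg Subtype.val h
  refine ⟨h1, fun i hi x => ?_, fun i hi => ?_⟩
  · obtain ⟨f, hf⟩ := hH.neg i hi
    exact hf ((h0 _ (by omega) (f x)).trans (map_zero f).symm)
  · rcases hi.lt_or_eq with hi | rfl
    · have := h1 i hi
      infer_instance
    · exact hH.top

end Pool.Agent.Results.MP_c71c7a_nt.FiniteFieldsSmallFactors
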